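import Mathlib

/-!
The lower bound `f(k, d) ≥ (2k + 2 - d) / (2k + 2)` on the `k`-independence ratio of graphs of
average degree at most `d` is not sharp for any `k ≥ d ≥ 2`.

We prove `(k² + 3k + 3) (n - α_k) ≤ (k + 1) m + n` for every graph with `n` vertices and `m`
edges and every `k ≥ 2` (with equality for disjoint unions of stars `K_{1,k+1}` and of the graphs
`K_{k+3} - E(K_{k+1})`).
-/

namespace Pool.Agent.Results.MP_10f18b_co.NeverSharp

open Finset

set_option linter.unusedSectionVars false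

section Main

variable {V : Type*} [Fintype V] [DecidableEq V]

/-- The number of edges. -/
noncomputable def m (G : SimpleGraph V) : ℕ := G.edgeSet.ncard

/-- The set of non-isolated vertices. -/
def act (G : SimpleGraph V) : Set V := {v | ∃ u, G.Adj v u}

/-- The degree. -/
noncomputable def dg (G : SimpleGraph V) (v : V) : ℕ := (G.neighborSet v).ncard

/-- `w` has at most `k` neighbours outside `Y`. -/
def low (G : SimpleGraph V) (k : ℕ) (Y : Set V) (w : V) : Prop :=
  {z | z ∉ Y ∧ G.Adj w z}.ncard ≤ k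

/-- Every vertex outside `X` has at most `k` neighbours outside `X`. -/
def good (G : SimpleGraph V) (k : ℕ) (X : Set V) : Prop := ∀ v ∉ X, low G k X v

/-- Delete the vertices of `Y` and all edges between vertices which then have degree at
most `k`. -/
def red (G : SimpleGraph V) (k : ℕ) (Y : Set V) : SimpleGraph V where
  Adj u v := G.Adj u v ∧ u ∉ Y ∧ v ∉ Y ∧ ¬ (low G k Y u ∧ low G k Y v)
  symm := ⟨fun _ _ ⟨h1, h2, h3, h4⟩ => ⟨h1.symm, h3, h2, fun ⟨h5, h6⟩ => h4 ⟨h6, h5⟩⟩⟩
  loopless := ⟨fun u ⟨h1, _⟩ => G.loopless.irrefl u h1⟩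

lemma red_le (G : SimpleGraph V) (k : ℕ) (Y : Set V) : red G k Y ≤ G := fun _ _ h => h.1

lemma good_union (G : SimpleGraph V) (k : ℕ) (Y X : Set V) (h : good (red G k Y) k X) :
    good G k (X ∪ Y) := by
  intro v hv
  have hvX : v ∉ X := fun h => hv (Or.inl h)
  have hvY : v ∉ Y := fun h => hv (Or.inr h)
  by_cases hl : low G k Y v
  · refine le_trans (Set.ncard_le_ncard ?_ (Set.toFinite _)) hl
    rintro z ⟨hz, hadj⟩
    exact ⟨fun h => hz (Or.inr h), hadj⟩
  · refine le_trans (Set.ncard_le_ncard ?_ (Set.toFinite _)) (h v hvX)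
    rintro z ⟨hz, hadj⟩
    exact ⟨fun h => hz (Or.inl h), hadj, hvY, fun h => hz (Or.inr h), fun h => hl h.1⟩

/-- The bound to be proved, with a bonus `c`. -/
def P (G : SimpleGraph V) (k c : ℕ) : Prop :=
  ∃ X : Set V, good G k X ∧
    (k ^ 2 + 3 * k + 3) * X.ncard + c ≤ (k + 1) * m G + (act G).ncard

lemma step (G : SimpleGraph V) (k c c' : ℕ)
    (Y Z : Set V) (L : Set (Sym2 V)) (e y : ℕ) (hP : m (red G k Y) < m G → P (red G k Y) k c)
    (hL : L ⊆ G.edgeSet)
    (hLY : ∀ s ∈ L, s ∉ (red G k Y).edgeSet) (he : e ≤ L.ncard) (he0 : 0 < e)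
    (hZ : ∀ z ∈ Z, z ∈ act G ∧ z ∉ act (red G k Y)) (hy : y ≤ Z.ncard)
    (hineq : (k ^ 2 + 3 * k + 3) * Y.ncard + c' ≤ (k + 1) * e + y + c) : P G k c' := by
  have hm : m (red G k Y) + L.ncard ≤ m G := by
    unfold m
    rw [← Set.ncard_union_eq (by
      rw [Set.disjoint_left]
      intro s hs hs'
      exact hLY s hs' hs)]
    apply Set.ncard_le_ncard _ (Set.toFinite _)
    apply Set.union_subset _ hL
    exact SimpleGraph.edgeSet_subset_edgeSet.2 (red_le G k Y)
  have hact : (act (red G k Y)).ncard + Z.ncard ≤ (act G).ncard := by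
    rw [← Set.ncard_union_eq (by
      rw [Set.disjoint_left]
      intro z hz hz'
      exact (hZ z hz').2 hz)]
    apply Set.ncard_le_ncard _ (Set.toFinite _)
    apply Set.union_subset
    · rintro v ⟨u, hu⟩
      exact ⟨u, red_le G k Y hu⟩
    · intro z hz
      exact (hZ z hz).1
  obtain ⟨X, hX, hXc⟩ := hP (by omega)
  refine ⟨X ∪ Y, good_union G k Y X hX, ?_⟩
  have h1 : (X ∪ Y).ncard ≤ X.ncard + Y.ncard := Set.ncard_union_le X Y
  have h2 : (k + 1) * (m (red G k Y) + e) ≤ (k + 1) * m G :=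
    Nat.mul_le_mul_left _ (by omega)
  have h3 : (k ^ 2 + 3 * k + 3) * (X ∪ Y).ncard ≤
      (k ^ 2 + 3 * k + 3) * X.ncard + (k ^ 2 + 3 * k + 3) * Y.ncard := by
    rw [← mul_add]
    exact Nat.mul_le_mul_left _ h1
  have h4 : (k + 1) * (m (red G k Y) + e) = (k + 1) * m (red G k Y) + (k + 1) * e := by ring
  omega

lemma ncard_incidence (G : SimpleGraph V) (v : V) : (G.incidenceSet v).ncard = dg G v := by
  unfold dg
  rw [← Nat.card_coe_set_eq, ← Nat.card_coe_set_eq]
  exact Nat.card_congr (G.incidenceSetEquivNeighborSet v)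

lemma notMem_red_of_mem {G : SimpleGraph V} {k : ℕ} {Y : Set V} {v : V} (hv : v ∈ Y)
    {s : Sym2 V} (hs : s ∈ G.incidenceSet v) : s ∉ (red G k Y).edgeSet := by
  intro h
  induction s using Sym2.ind with
  | _ x y =>
    rw [SimpleGraph.mem_edgeSet] at h
    rw [SimpleGraph.mk'_mem_incidenceSet_iff] at hs
    rcases hs.2 with rfl | rfl
    · exact h.2.1 hv
    · exact h.2.2.1 hv

lemma notMem_red_of_low {G : SimpleGraph V} {k : ℕ} {Y : Set V} {x y : V}
    (hx : low G k Y x) (hy : low G k Y y) : s(x, y) ∉ (red G k Y).edgeSet := by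
  intro h
  rw [SimpleGraph.mem_edgeSet] at h
  exact h.2.2.2 ⟨hx, hy⟩

lemma notMem_act_of_mem {G : SimpleGraph V} {k : ℕ} {Y : Set V} {v : V} (hv : v ∈ Y) :
    v ∉ act (red G k Y) := by
  rintro ⟨u, hu⟩
  exact hu.2.1 hv

lemma low_of_deg_le {G : SimpleGraph V} {k : ℕ} {Y : Set V} {v : V} (h : dg G v ≤ k) :
    low G k Y v := by
  refine le_trans (Set.ncard_le_ncard ?_ (Set.toFinite _)) h
  rintro z ⟨-, hz⟩
  exact hz

lemma low_of_adj {G : SimpleGraph V} {k : ℕ} {Y : Set V} {v u : V} (h : dg G v ≤ k + 1)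
    (hu : u ∈ Y) (hadj : G.Adj v u) : low G k Y v := by
  unfold low
  have h1 : {z | z ∉ Y ∧ G.Adj v z} ⊆ G.neighborSet v \ {u} := by
    rintro z ⟨hz, hz'⟩
    refine ⟨hz', ?_⟩
    rintro rfl
    exact hz hu
  have h2 := Set.ncard_le_ncard h1 (Set.toFinite _)
  have h3 : (G.neighborSet v \ {u}).ncard + 1 = (G.neighborSet v).ncard :=
    Set.ncard_sdiff_singleton_add_one hadj (Set.toFinite _)
  unfold dg at h
  omega

lemma mem_act {G : SimpleGraph V} {v : V} (h : 0 < dg G v) : v ∈ act G := by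
  unfold dg at h
  rw [Set.ncard_pos] at h
  obtain ⟨u, hu⟩ := h
  exact ⟨u, hu⟩

lemma disjoint_incidence {G : SimpleGraph V} {u v : V} (h : ¬ G.Adj u v) (hne : u ≠ v) :
    Disjoint (G.incidenceSet u) (G.incidenceSet v) := by
  rw [Set.disjoint_iff_inter_eq_empty]
  exact G.incidenceSet_inter_incidenceSet_of_not_adj h hne

lemma dg_red_le {G : SimpleGraph V} {k : ℕ} {Y : Set V} (v : V) : dg (red G k Y) v ≤ dg G v := by
  unfold dg
  apply Set.ncard_le_ncard _ (Set.toFinite _)
  intro z hz
  exact hz.1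

/-- Deleting a neighbour `v` of `y` either leaves `y` with exactly `k` neighbours or loses an edge
at `y` to a vertex `z` of degree at most `k`. -/
lemma witness {G : SimpleGraph V} {k : ℕ} {v y : V} (hvy : G.Adj y v) (hy : dg G y = k + 1) :
    (∃ z, G.Adj y z ∧ z ≠ v ∧ low G k {v} z) ∨ dg (red G k {v}) y = k := by
  by_cases h : ∃ z, G.Adj y z ∧ z ≠ v ∧ low G k {v} z
  · exact Or.inl h
  right
  push Not at h
  have h1 : (red G k {v}).neighborSet y = G.neighborSet y \ {v} := by
    ext z
    constructor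
    · intro hz
      exact ⟨hz.1, fun h' => hz.2.2.1 h'⟩
    · rintro ⟨hz, hzv⟩
      exact ⟨hz, fun h' => hvy.ne h', fun h' => hzv h', fun h' => h z hz hzv h'.2⟩
  have h3 : (G.neighborSet y \ {v}).ncard + 1 = (G.neighborSet y).ncard :=
    Set.ncard_sdiff_singleton_add_one hvy (Set.toFinite _)
  unfold dg at hy ⊢
  rw [h1]
  omega

theorem main (k : ℕ) (hk : 2 ≤ k) : ∀ (N : ℕ) (G : SimpleGraph V), m G = N →
    P G k 0 ∧ ((∀ v, dg G v ≤ k + 1) → (∃ y, 2 ≤ dg G y ∧ dg G y ≤ k) → P G k (k + 1)) := by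
  intro N
  induction N using Nat.strong_induction_on with
  | _ N IH =>
  intro G hG
  have ih0 : ∀ H : SimpleGraph V, m H < m G → P H k 0 := fun H hH =>
    (IH (m H) (hG ▸ hH) H rfl).1
  have ih1 : ∀ H : SimpleGraph V, m H < m G → (∀ v, dg H v ≤ k + 1) →
      (∃ y, 2 ≤ dg H y ∧ dg H y ≤ k) → P H k (k + 1) := fun H hH =>
    (IH (m H) (hG ▸ hH) H rfl).2
  -- (a) edges between vertices of degree at most `k`
  by_cases ha : ∃ x y, G.Adj x y ∧ dg G x ≤ k ∧ dg G y ≤ k
  · obtain ⟨x, y, hxy, hx, hy⟩ := ha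
    have h1 : P G k (k + 1) := by
      refine step G k 0 (k + 1) ∅ ∅ {s(x, y)} 1 0 (ih0 _) ?_ ?_ (by simp) one_pos (by simp)
        (by simp) (by simp)
      · rintro s rfl
        exact hxy
      · rintro s rfl
        exact notMem_red_of_low (low_of_deg_le hx) (low_of_deg_le hy)
    obtain ⟨X, hX, hXc⟩ := h1
    exact ⟨⟨X, hX, by omega⟩, fun _ _ => ⟨X, hX, hXc⟩⟩
  push Not at ha
  have hlow : ∀ {x y}, G.Adj x y → dg G x ≤ k → k + 1 ≤ dg G y := fun {x y} h h' => ha x y h h'
  -- (b) vertices of degree at least `k + 2`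
  by_cases hb : ∃ v, k + 2 ≤ dg G v
  · obtain ⟨v, hv⟩ := hb
    constructor
    · refine step G k 0 0 {v} {v} (G.incidenceSet v) (k + 2) 1 (ih0 _)
        (G.incidenceSet_subset v) ?_ (by rw [ncard_incidence]; exact hv) (by omega) ?_ (by simp) ?_
      · intro s hs
        exact notMem_red_of_mem (by simp) hs
      · rintro z rfl
        exact ⟨mem_act (by omega), notMem_act_of_mem (by simp)⟩
      · rw [Set.ncard_singleton]; nlinarith
    · intro h
      have := h v
      omega
  push Not at hb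
  have hb' : ∀ v, dg G v ≤ k + 1 := fun v => by have := hb v; omega
  have hbred : ∀ Y, ∀ v, dg (red G k Y) v ≤ k + 1 := fun Y v => (dg_red_le v).trans (hb' v)
  -- one deletion with additional lost edges
  have one : ∀ (v : V) (M : Set (Sym2 V)) (c c' : ℕ), k + 1 ≤ dg G v →
      (m (red G k {v}) < m G → P (red G k {v}) k c) →
      (∀ s ∈ M, s ∈ G.edgeSet ∧ s ∉ G.incidenceSet v ∧ s ∉ (red G k {v}).edgeSet) →
      (k ^ 2 + 3 * k + 3) + c' ≤ (k + 1) * (k + 1 + M.ncard) + 1 + c → P G k c' := by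
    intro v M c c' hv hP hM hineq
    refine step G k c c' {v} {v} (M ∪ G.incidenceSet v) (k + 1 + M.ncard) 1 hP ?_ ?_ ?_ (by omega)
      ?_ (by simp) ?_
    · exact Set.union_subset (fun s hs => (hM s hs).1) (G.incidenceSet_subset v)
    · rintro s (hs | hs)
      · exact (hM s hs).2.2
      · exact notMem_red_of_mem (by simp) hs
    · rw [Set.ncard_union_eq (by
        rw [Set.disjoint_left]
        intro s hs hs'
        exact (hM s hs).2.1 hs'), ncard_incidence]
      omega
    · rintro z rfl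
      exact ⟨mem_act (by omega), notMem_act_of_mem (by simp)⟩
    · rw [Set.ncard_singleton]; omega
  have hM1 : ∀ v x y, G.Adj x y → x ≠ v → y ≠ v → low G k {v} x → low G k {v} y →
      s(x, y) ∈ G.edgeSet ∧ s(x, y) ∉ G.incidenceSet v ∧ s(x, y) ∉ (red G k {v}).edgeSet := by
    intro v x y hxy hxv hyv hx hy
    refine ⟨hxy, ?_, notMem_red_of_low hx hy⟩
    rw [SimpleGraph.mk'_mem_incidenceSet_iff]
    rintro ⟨-, rfl | rfl⟩
    · exact hxv rfl
    · exact hyv rfl
  -- (c) a high vertex `u` with a high neighbour `v` and a low neighbour `b`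
  have hc1 : ∀ u v b, G.Adj u v → G.Adj u b → k + 1 ≤ dg G v → dg G b ≤ k → P G k (k + 1) := by
    intro u v b huv hub hv hbk
    have huk : k + 1 ≤ dg G u := hlow hub.symm hbk
    have hbv : b ≠ v := by
      rintro rfl
      omega
    have hul : low G k {v} u := low_of_adj (hb' u) (by simp) huv
    have e1 := hM1 v u b hub huv.ne hbv hul (low_of_deg_le hbk)
    by_cases hy : ∃ y, G.Adj v y ∧ y ≠ u ∧ k + 1 ≤ dg G y
    · obtain ⟨y, hvy, hyu, hyk⟩ := hy
      have hy1 : dg G y = k + 1 := by have := hb' y; omega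
      rcases witness hvy.symm hy1 with ⟨z, hyz, hzv, hz⟩ | hw
      · have hyl : low G k {v} y := low_of_adj (hb' y) (by simp) hvy.symm
        have e2 := hM1 v y z hyz hvy.ne' hzv hyl hz
        have hyb : y ≠ b := by
          rintro rfl
          omega
        have hne : s(u, b) ≠ s(y, z) := by
          intro h
          rw [Sym2.eq_iff] at h
          rcases h with ⟨h, -⟩ | ⟨-, h⟩
          · exact hyu h.symm
          · exact hyb h.symm
        refine one v {s(u, b), s(y, z)} 0 (k + 1) hv (ih0 _) ?_ ?_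
        · rintro s (rfl | rfl)
          · exact e1
          · exact e2
        · rw [Set.ncard_pair hne]; nlinarith
      · refine one v {s(u, b)} (k + 1) (k + 1) hv
          (fun h => ih1 _ h (hbred _) ⟨y, by omega, by omega⟩) ?_ ?_
        · rintro s rfl
          exact e1
        · rw [Set.ncard_singleton]; nlinarith
    · -- all other neighbours of `v` are low: delete `u`
      push Not at hy
      have hex : 2 ≤ (G.neighborSet v \ {u}).ncard := by
        have h3 : (G.neighborSet v \ {u}).ncard + 1 = (G.neighborSet v).ncard :=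
          Set.ncard_sdiff_singleton_add_one huv.symm (Set.toFinite _)
        unfold dg at hv
        omega
      have h4 : 1 < (G.neighborSet v \ {u}).ncard := hex
      rw [Set.one_lt_ncard] at h4
      obtain ⟨y1, hy1, y2, hy2, hne⟩ := h4
      have hvl : low G k {u} v := low_of_adj (hb' v) (by simp) huv.symm
      have g1 : dg G y1 ≤ k := by
        have := hy y1 hy1.1 hy1.2
        omega
      have g2 : dg G y2 ≤ k := by
        have := hy y2 hy2.1 hy2.2
        omega
      have e1' := hM1 u v y1 hy1.1 huv.ne' hy1.2 hvl (low_of_deg_le g1)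
      have e2' := hM1 u v y2 hy2.1 huv.ne' hy2.2 hvl (low_of_deg_le g2)
      have hne' : s(v, y1) ≠ s(v, y2) := by
        intro h
        rw [Sym2.eq_iff] at h
        rcases h with ⟨-, h⟩ | ⟨h, -⟩
        · exact hne h
        · have : G.Adj v y2 := hy2.1
          exact this.ne h
      refine one u {s(v, y1), s(v, y2)} 0 (k + 1) huk (ih0 _) ?_ ?_
      · rintro s (rfl | rfl)
        · exact e1'
        · exact e2'
      · rw [Set.ncard_pair hne']; nlinarith
  have hweak : P G k (k + 1) → P G k 0 := fun ⟨X, hX, hXc⟩ => ⟨X, hX, by omega⟩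
  by_cases hc : ∃ u v b, G.Adj u v ∧ G.Adj u b ∧ k + 1 ≤ dg G v ∧ dg G b ≤ k
  · obtain ⟨u, v, b, huv, hub, hv, hbk⟩ := hc
    have h := hc1 u v b huv hub hv hbk
    exact ⟨hweak h, fun _ _ => h⟩
  push Not at hc
  -- a low vertex `b` with two neighbours
  have htwo : ∀ b u a, G.Adj u b → G.Adj b a → a ≠ u → dg G b ≤ k → P G k (k + 1) := by
    intro b u a hub hba hau hbk
    have huk : k + 1 ≤ dg G u := hlow hub.symm hbk
    have hak : k + 1 ≤ dg G a := hlow hba hbk
    have hu1 : dg G u = k + 1 := by have := hb' u; omega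
    have ha1 : dg G a = k + 1 := by have := hb' a; omega
    have hB : ∀ c, G.Adj c b → ∀ z, G.Adj c z → dg G z ≤ k := by
      intro c hcb z hz
      by_contra hcon
      have := hc c z b hz hcb (by omega)
      omega
    have hua : ¬ G.Adj u a := by
      intro h
      have := hB u hub a h
      omega
    have key : ∀ c : V, G.Adj c b → ∀ s ∈ G.incidenceSet c, s ∉ (red G k {b}).edgeSet := by
      intro c hcb s hs
      induction s using Sym2.ind with
      | _ x y =>
        have hcl : low G k {b} c := low_of_adj (hb' c) (by simp) hcb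
        rw [SimpleGraph.mk'_mem_incidenceSet_iff] at hs
        rcases hs.2 with rfl | rfl
        · exact notMem_red_of_low hcl (low_of_deg_le (hB c hcb y hs.1))
        · exact notMem_red_of_low (low_of_deg_le (hB c hcb x hs.1.symm)) hcl
    refine step G k 0 (k + 1) {b} {b} (G.incidenceSet u ∪ G.incidenceSet a) (2 * k + 2) 1 (ih0 _)
      ?_ ?_ ?_ (by omega) ?_ (by simp) ?_
    · exact Set.union_subset (G.incidenceSet_subset u) (G.incidenceSet_subset a)
    · rintro s (hs | hs)
      · exact key u hub s hs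
      · exact key a hba.symm s hs
    · rw [Set.ncard_union_eq (disjoint_incidence hua hau.symm), ncard_incidence,
        ncard_incidence]
      omega
    · rintro z rfl
      exact ⟨⟨u, hub.symm⟩, notMem_act_of_mem (by simp)⟩
    · rw [Set.ncard_singleton]; nlinarith
  constructor
  · -- (d) no high vertices
    by_cases hd : ∀ u, dg G u ≤ k
    · refine ⟨∅, fun v _ => low_of_deg_le (hd v), by simp⟩
    push Not at hd
    obtain ⟨u, hu⟩ := hd
    have hu1 : dg G u = k + 1 := by have := hb' u; omega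
    by_cases hB : ∃ b, G.Adj u b ∧ dg G b ≤ k
    · -- all neighbours of `u` are low
      obtain ⟨b0, hub0, hb0⟩ := hB
      have huB : ∀ z, G.Adj u z → dg G z ≤ k := by
        intro z hz
        by_contra hcon
        have := hc u z b0 hz hub0 (by omega)
        omega
      by_cases hd1 : ∃ b a, G.Adj u b ∧ G.Adj b a ∧ a ≠ u
      · obtain ⟨b, a, hub, hba, hau⟩ := hd1
        exact hweak (htwo b u a hub hba hau (huB b hub))
      · -- a star `K_{1,k+1}`
        push Not at hd1
        refine step G k 0 0 {u} (insert u (G.neighborSet u)) (G.incidenceSet u) (k + 1) (k + 2)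
          (ih0 _) (G.incidenceSet_subset u) ?_ ?_ (by omega) ?_ ?_ ?_
        · intro s hs
          exact notMem_red_of_mem (by simp) hs
        · rw [ncard_incidence]; omega
        · rintro z (rfl | hz)
          · exact ⟨mem_act (by omega), notMem_act_of_mem (by simp)⟩
          · refine ⟨⟨u, hz.symm⟩, ?_⟩
            rintro ⟨w, hw⟩
            have := hd1 z w hz hw.1
            exact hw.2.2.1 (by simp [this])
        · rw [Set.ncard_insert_of_notMem (by simp) (Set.toFinite _)]
          unfold dg at hu1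
          omega
        · rw [Set.ncard_singleton]; nlinarith
    · -- all neighbours of `u` are high: delete `u`
      push Not at hB
      have hex : ∃ y, G.Adj u y := by
        have : (G.neighborSet u).Nonempty := by
          rw [← Set.ncard_pos]
          unfold dg at hu1
          omega
        exact this
      obtain ⟨y, huy⟩ := hex
      have hy1 : dg G y = k + 1 := by
        have h1 := hb' y
        have h2 := hB y huy
        omega
      rcases witness huy.symm hy1 with ⟨z, hyz, hzv, hz⟩ | hw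
      · have hyl : low G k {u} y := low_of_adj (hb' y) (by simp) huy.symm
        have e2 := hM1 u y z hyz huy.ne' hzv hyl hz
        refine one u {s(y, z)} 0 0 (by omega) (ih0 _) ?_ ?_
        · rintro s rfl
          exact e2
        · rw [Set.ncard_singleton]; nlinarith
      · refine one u ∅ (k + 1) 0 (by omega)
          (fun h => ih1 _ h (hbred _) ⟨y, by omega, by omega⟩) ?_ ?_
        · intro s hs
          exact absurd hs (by simp)
        · rw [Set.ncard_empty]; nlinarith
  · rintro - ⟨y, hy2, hyk⟩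
    have h4 : 1 < (G.neighborSet y).ncard := hy2
    rw [Set.one_lt_ncard] at h4
    obtain ⟨u, hu, a, ha', hne⟩ := h4
    exact htwo y u a (show G.Adj y u from hu).symm ha' (Ne.symm hne) hyk

end Main

/-! ### The statement -/

/-- `S` is `k`-independent: the induced subgraph has maximum degree at most `k`. -/
def IsKIndep {V : Type} (G : SimpleGraph V) (k : ℕ) (S : Set V) : Prop :=
  ∀ v ∈ S, {u | u ∈ S ∧ G.Adj v u}.ncard ≤ k

/-- The `k`-independence number. -/
noncomputable def alpha {V : Type} (G : SimpleGraph V) (k : ℕ) : ℕ :=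
  sSup {s | ∃ S : Set V, IsKIndep G k S ∧ S.ncard = s}

/-- The average degree. -/
noncomputable def avgDeg {V : Type} [Fintype V] (G : SimpleGraph V) : ℝ :=
  (∑ v, ((G.neighborSet v).ncard : ℝ)) / Fintype.card V

/-- `f(k, d)`: the infimum of `α_k(G) / n(G)` over all finite graphs `G` with at least one vertex
and average degree at most `d`. -/
noncomputable def f (k d : ℕ) : ℝ :=
  sInf {x : ℝ | ∃ (V : Type) (_ : Fintype V) (G : SimpleGraph V), Nonempty V ∧ avgDeg G ≤ d ∧
    x = (alpha G k : ℝ) / Fintype.card V}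

section Bounds

variable {V : Type} [Fintype V]

lemma alpha_bdd (G : SimpleGraph V) (k : ℕ) :
    BddAbove {s | ∃ S : Set V, IsKIndep G k S ∧ S.ncard = s} := by
  refine ⟨Fintype.card V, ?_⟩
  rintro s ⟨T, -, rfl⟩
  calc T.ncard ≤ (Set.univ : Set V).ncard := Set.ncard_le_ncard (Set.subset_univ _)
        (Set.toFinite _)
    _ = Fintype.card V := by rw [Set.ncard_univ, Nat.card_eq_fintype_card]

lemma le_alpha (G : SimpleGraph V) (k : ℕ) (S : Set V) (h : IsKIndep G k S) :
    S.ncard ≤ alpha G k := le_csSup (alpha_bdd G k) ⟨S, h, rfl⟩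

lemma sum_deg (G : SimpleGraph V) :
    ∑ v, (G.neighborSet v).ncard = 2 * G.edgeSet.ncard := by
  classical
  have h := G.sum_degrees_eq_twice_card_edges
  have h1 : ∀ v, (G.neighborSet v).ncard = G.degree v := by
    intro v
    rw [Set.ncard_eq_toFinset_card']
    rfl
  have h2 : G.edgeSet.ncard = G.edgeFinset.card := by
    rw [Set.ncard_eq_toFinset_card']
    rfl
  rw [h2, ← h]
  exact Finset.sum_congr rfl fun v _ => h1 v

/-- The inequality between `α_k`, the number of vertices and the number of edges. -/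
theorem ineq (k : ℕ) (hk : 2 ≤ k) (G : SimpleGraph V) :
    (k ^ 2 + 3 * k + 3) * Fintype.card V ≤
      (k ^ 2 + 3 * k + 3) * alpha G k + (k + 1) * G.edgeSet.ncard + Fintype.card V := by
  classical
  obtain ⟨X, hX, hXc⟩ := (main k hk (m G) G rfl).1
  have h1 : IsKIndep G k Xᶜ := by
    intro v hv
    exact hX v hv
  have h2 := le_alpha G k Xᶜ h1
  have h3 : X.ncard + Xᶜ.ncard = Fintype.card V := by
    rw [Set.ncard_add_ncard_compl, Nat.card_eq_fintype_card]
  have h4 : (act G).ncard ≤ Fintype.card V := by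
    calc (act G).ncard ≤ (Set.univ : Set V).ncard :=
          Set.ncard_le_ncard (Set.subset_univ _) (Set.toFinite _)
      _ = Fintype.card V := by rw [Set.ncard_univ, Nat.card_eq_fintype_card]
  unfold m at hXc
  have h5 := Nat.mul_le_mul_left (k ^ 2 + 3 * k + 3) h2
  rw [← h3] at h4 ⊢
  rw [mul_add]
  omega

/-- The lower bound for the ratio of a single graph. -/
lemma ratio (k : ℕ) (hk : 2 ≤ k) (d : ℝ) (G : SimpleGraph V) [Nonempty V] (havg : avgDeg G ≤ d) :
    1 - ((k + 1) * d + 2) / (2 * (k ^ 2 + 3 * k + 3)) ≤ (alpha G k : ℝ) / Fintype.card V := by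
  have hn0 : (0 : ℝ) < Fintype.card V := by exact_mod_cast Fintype.card_pos
  have h1 := ineq k hk G
  have h2 : ((k ^ 2 + 3 * k + 3 : ℕ) : ℝ) * Fintype.card V ≤
      ((k ^ 2 + 3 * k + 3 : ℕ) : ℝ) * alpha G k +
        ((k + 1 : ℕ) : ℝ) * (G.edgeSet.ncard : ℝ) + Fintype.card V := by exact_mod_cast h1
  have h3 : (2 : ℝ) * (G.edgeSet.ncard : ℝ) ≤ d * Fintype.card V := by
    unfold avgDeg at havg
    rw [div_le_iff₀ hn0] at havg
    have h4 : ∑ v, ((G.neighborSet v).ncard : ℝ) = 2 * (G.edgeSet.ncard : ℝ) := by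
      exact_mod_cast sum_deg G
    rw [h4] at havg
    exact havg
  push_cast at h2
  have hk0 : (0 : ℝ) < k + 1 := by positivity
  have hK : (0 : ℝ) < (k : ℝ) ^ 2 + 3 * k + 3 := by positivity
  rw [le_div_iff₀ hn0]
  have h5 : (2 * ((k : ℝ) ^ 2 + 3 * k + 3)) * (((1 : ℝ) - ((k + 1) * d + 2) /
      (2 * (k ^ 2 + 3 * k + 3))) * Fintype.card V) =
      2 * ((k : ℝ) ^ 2 + 3 * k + 3) * Fintype.card V - ((k + 1) * d + 2) * Fintype.card V := by
    field_simp
  have h6 : (2 * ((k : ℝ) ^ 2 + 3 * k + 3)) * (((1 : ℝ) - ((k + 1) * d + 2) /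
      (2 * (k ^ 2 + 3 * k + 3))) * Fintype.card V) ≤
      (2 * ((k : ℝ) ^ 2 + 3 * k + 3)) * alpha G k := by
    rw [h5]
    nlinarith [mul_le_mul_of_nonneg_left h3 hk0.le]
  exact le_of_mul_le_mul_left h6 (by positivity)

end Bounds

/-- The lower bound for `f`. -/
theorem lower (k d : ℕ) (hk : 2 ≤ k) :
    1 - ((k + 1) * d + 2) / (2 * (k ^ 2 + 3 * k + 3) : ℝ) ≤ f k d := by
  refine le_csInf ⟨_, Unit, inferInstance, ⊥, ⟨()⟩, ?_, rfl⟩ ?_
  · unfold avgDeg
    simp
  · rintro x ⟨V, hV, G, hne, havg, rfl⟩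
    exact ratio k hk d G havg

/-! ### Extremal graphs -/

/-- The vertex set of the disjoint union of `x` stars `K_{1,k+1}` and `y` graphs
`K_{k+3} - E(K_{k+1})`. -/
abbrev W (k x y : ℕ) : Type := (Fin x × Option (Fin (k + 1))) ⊕ (Fin y × (Bool ⊕ Fin (k + 1)))

/-- The disjoint union of `x` stars `K_{1,k+1}` and `y` graphs `K_{k+3} - E(K_{k+1})`. -/
def GW (k x y : ℕ) : SimpleGraph (W k x y) where
  Adj u v := match u, v with
    | Sum.inl (i, none), Sum.inl (j, some _) => i = j
    | Sum.inl (i, some _), Sum.inl (j, none) => i = j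
    | Sum.inr (i, Sum.inl b), Sum.inr (j, Sum.inl c) => i = j ∧ b ≠ c
    | Sum.inr (i, Sum.inl _), Sum.inr (j, Sum.inr _) => i = j
    | Sum.inr (i, Sum.inr _), Sum.inr (j, Sum.inl _) => i = j
    | _, _ => False
  symm := ⟨by
    rintro (⟨i, _ | a⟩ | ⟨i, b | a⟩) (⟨j, _ | a'⟩ | ⟨j, b' | a'⟩) h <;> simp_all [eq_comm]⟩
  loopless := ⟨by
    rintro (⟨i, _ | a⟩ | ⟨i, b | a⟩) h <;> simp_all⟩

lemma card_W (k x y : ℕ) : Fintype.card (W k x y) = x * (k + 2) + y * (k + 3) := by
  simp only [W, Fintype.card_sum, Fintype.card_prod, Fintype.card_fin, Fintype.card_option,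
    Fintype.card_bool]
  ring

lemma deg_center {k x y : ℕ} (i : Fin x) :
    ((GW k x y).neighborSet (Sum.inl (i, none))).ncard ≤ k + 1 := by
  have h : (GW k x y).neighborSet (Sum.inl (i, none)) ⊆
      Set.range fun a : Fin (k + 1) => (Sum.inl (i, some a) : W k x y) := by
    rintro (⟨j, _ | a⟩ | ⟨j, b | a⟩) hz
    · exact absurd hz id
    · have : i = j := hz
      subst this
      exact ⟨a, rfl⟩
    · exact absurd hz id
    · exact absurd hz id
  refine (Set.ncard_le_ncard h (Set.toFinite _)).trans ?_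
  rw [← Set.image_univ]
  refine (Set.ncard_image_le (Set.toFinite _)).trans ?_
  rw [Set.ncard_univ, Nat.card_fin]

lemma deg_leaf {k x y : ℕ} (i : Fin x) (a : Fin (k + 1)) :
    ((GW k x y).neighborSet (Sum.inl (i, some a))).ncard ≤ 1 := by
  have h : (GW k x y).neighborSet (Sum.inl (i, some a)) ⊆ {(Sum.inl (i, none) : W k x y)} := by
    rintro (⟨j, _ | a⟩ | ⟨j, b | a⟩) hz
    · have : i = j := hz
      subst this
      rfl
    · exact absurd hz id
    · exact absurd hz id
    · exact absurd hz id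
  refine (Set.ncard_le_ncard h (Set.toFinite _)).trans ?_
  rw [Set.ncard_singleton]

lemma deg_hub {k x y : ℕ} (i : Fin y) (b : Bool) :
    ((GW k x y).neighborSet (Sum.inr (i, Sum.inl b))).ncard ≤ k + 2 := by
  have h : (GW k x y).neighborSet (Sum.inr (i, Sum.inl b)) ⊆
      insert (Sum.inr (i, Sum.inl !b) : W k x y)
        (Set.range fun a : Fin (k + 1) => (Sum.inr (i, Sum.inr a) : W k x y)) := by
    rintro (⟨j, _ | a⟩ | ⟨j, c | a⟩) hz
    · exact absurd hz id
    · exact absurd hz id
    · have h1 : i = j ∧ b ≠ c := hz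
      obtain ⟨rfl, h2⟩ := h1
      left
      cases b <;> cases c <;> simp_all
    · have : i = j := hz
      subst this
      exact Or.inr ⟨a, rfl⟩
  refine (Set.ncard_le_ncard h (Set.toFinite _)).trans ?_
  refine (Set.ncard_insert_le _ _).trans ?_
  rw [← Set.image_univ]
  have := Set.ncard_image_le (f := fun a : Fin (k + 1) => (Sum.inr (i, Sum.inr a) : W k x y))
    (Set.toFinite (Set.univ : Set (Fin (k + 1))))
  rw [Set.ncard_univ, Nat.card_fin] at this
  omega

lemma deg_ind {k x y : ℕ} (i : Fin y) (a : Fin (k + 1)) :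
    ((GW k x y).neighborSet (Sum.inr (i, Sum.inr a))).ncard ≤ 2 := by
  have h : (GW k x y).neighborSet (Sum.inr (i, Sum.inr a)) ⊆
      {(Sum.inr (i, Sum.inl true) : W k x y), Sum.inr (i, Sum.inl false)} := by
    rintro (⟨j, _ | a⟩ | ⟨j, c | a⟩) hz
    · exact absurd hz id
    · exact absurd hz id
    · have : i = j := hz
      subst this
      cases c <;> simp
    · exact absurd hz id
  refine (Set.ncard_le_ncard h (Set.toFinite _)).trans ?_
  exact (Set.ncard_insert_le _ _).trans (by rw [Set.ncard_singleton])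

lemma sum_deg_W (k x y : ℕ) : ∑ v, ((GW k x y).neighborSet v).ncard ≤
    x * (2 * k + 2) + y * (4 * k + 6) := by
  rw [Fintype.sum_sum_type, Fintype.sum_prod_type (f := fun p : Fin x × Option (Fin (k + 1)) =>
    ((GW k x y).neighborSet (Sum.inl p)).ncard),
    Fintype.sum_prod_type (f := fun p : Fin y × (Bool ⊕ Fin (k + 1)) =>
    ((GW k x y).neighborSet (Sum.inr p)).ncard)]
  apply Nat.add_le_add
  · calc _ ≤ ∑ _i : Fin x, (2 * k + 2) := by
          refine Finset.sum_le_sum fun i _ => ?_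
          rw [Fintype.sum_option]
          have h1 := deg_center (k := k) (y := y) i
          have h2 : ∑ a : Fin (k + 1), ((GW k x y).neighborSet (Sum.inl (i, some a))).ncard ≤
              ∑ _a : Fin (k + 1), 1 := Finset.sum_le_sum fun a _ => deg_leaf i a
          simp only [Finset.sum_const, Finset.card_univ, Fintype.card_fin, smul_eq_mul,
            mul_one] at h2
          omega
      _ = _ := by simp
  · calc _ ≤ ∑ _i : Fin y, (4 * k + 6) := by
          refine Finset.sum_le_sum fun i _ => ?_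
          rw [Fintype.sum_sum_type]
          have h1 : ∑ b : Bool, ((GW k x y).neighborSet (Sum.inr (i, Sum.inl b))).ncard ≤
              ∑ _b : Bool, (k + 2) := Finset.sum_le_sum fun b _ => deg_hub i b
          have h2 : ∑ a : Fin (k + 1), ((GW k x y).neighborSet (Sum.inr (i, Sum.inr a))).ncard ≤
              ∑ _a : Fin (k + 1), 2 := Finset.sum_le_sum fun a _ => deg_ind i a
          simp only [Finset.sum_const, Finset.card_univ, Fintype.card_fin, smul_eq_mul,
            Fintype.card_bool] at h1 h2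
          omega
      _ = _ := by simp

open Classical in
lemma compl_card {V : Type} [Fintype V] (S : Set V) :
    S.ncard + ∑ v : V, (if v ∈ S then 0 else 1) = Fintype.card V := by
  have h1 : S.ncard + Sᶜ.ncard = Fintype.card V := by
    rw [Set.ncard_add_ncard_compl, Nat.card_eq_fintype_card]
  have h2 : Sᶜ.ncard = ∑ v : V, if v ∈ S then 0 else 1 := by
    have h3 : Sᶜ = ((univ.filter fun v => v ∉ S : Finset V) : Set V) := by
      ext; simp
    rw [h3, Set.ncard_coe_finset, Finset.card_filter]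
    exact Finset.sum_congr rfl fun v _ => by by_cases h : v ∈ S <;> simp [h]
  rw [← h2, h1]

open Classical in
lemma star_miss {k x y : ℕ} {S : Set (W k x y)} (hS : IsKIndep (GW k x y) k S) (i : Fin x) :
    1 ≤ ∑ z : Option (Fin (k + 1)), (if (Sum.inl (i, z) : W k x y) ∈ S then 0 else 1) := by
  by_contra hcon
  have h0 : ∑ z : Option (Fin (k + 1)), (if (Sum.inl (i, z) : W k x y) ∈ S then 0 else 1) = 0 := by
    omega
  have hall : ∀ z, (Sum.inl (i, z) : W k x y) ∈ S := by
    intro z
    have := (Finset.sum_eq_zero_iff.1 h0) z (mem_univ z)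
    by_contra h
    simp [h] at this
  have h1 := hS _ (hall none)
  have h2 : (Set.range fun a : Fin (k + 1) => (Sum.inl (i, some a) : W k x y)) ⊆
      {u | u ∈ S ∧ (GW k x y).Adj (Sum.inl (i, none)) u} := by
    rintro _ ⟨a, rfl⟩
    exact ⟨hall _, rfl⟩
  have h3 := Set.ncard_le_ncard h2 (Set.toFinite _)
  rw [← Set.image_univ, Set.ncard_image_of_injective _ (by intro a b h; simpa using h),
    Set.ncard_univ, Nat.card_fin] at h3
  have h4 := h3.trans h1
  omega

open Classical in
lemma hub_nb {k x y : ℕ} {S : Set (W k x y)} (hS : IsKIndep (GW k x y) k S) (i : Fin y) (b : Bool)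
    (hb : (Sum.inr (i, Sum.inl b) : W k x y) ∈ S) :
    {a : Fin (k + 1) | (Sum.inr (i, Sum.inr a) : W k x y) ∈ S}.ncard +
      (if (Sum.inr (i, Sum.inl !b) : W k x y) ∈ S then 1 else 0) ≤ k := by
  have h1 := hS _ hb
  set A : Set (Fin (k + 1)) := {a | (Sum.inr (i, Sum.inr a) : W k x y) ∈ S} with hA
  have hinj : Function.Injective fun a : Fin (k + 1) => (Sum.inr (i, Sum.inr a) : W k x y) := by
    intro a b h; simpa using h
  have h2 : (fun a : Fin (k + 1) => (Sum.inr (i, Sum.inr a) : W k x y)) '' A ⊆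
      {u | u ∈ S ∧ (GW k x y).Adj (Sum.inr (i, Sum.inl b)) u} := by
    rintro _ ⟨a, ha, rfl⟩
    exact ⟨ha, rfl⟩
  split_ifs with h
  · have h3 : insert (Sum.inr (i, Sum.inl !b) : W k x y)
        ((fun a : Fin (k + 1) => (Sum.inr (i, Sum.inr a) : W k x y)) '' A) ⊆
        {u | u ∈ S ∧ (GW k x y).Adj (Sum.inr (i, Sum.inl b)) u} := by
      rintro u (rfl | hu)
      · exact ⟨h, rfl, by cases b <;> simp⟩
      · exact h2 hu
    have h4 := Set.ncard_le_ncard h3 (Set.toFinite _)
    rw [Set.ncard_insert_of_notMem (by rintro ⟨a, -, ha⟩; simp at ha) (Set.toFinite _),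
      Set.ncard_image_of_injective _ hinj] at h4
    exact h4.trans h1
  · have h4 := Set.ncard_le_ncard h2 (Set.toFinite _)
    rw [Set.ncard_image_of_injective _ hinj] at h4
    exact h4.trans h1

open Classical in
lemma hub_miss {k x y : ℕ} {S : Set (W k x y)} (hS : IsKIndep (GW k x y) k S) (i : Fin y) :
    2 ≤ ∑ z : Bool ⊕ Fin (k + 1), (if (Sum.inr (i, z) : W k x y) ∈ S then 0 else 1) := by
  rw [Fintype.sum_sum_type, Fintype.sum_bool]
  have h1 := compl_card {a : Fin (k + 1) | (Sum.inr (i, Sum.inr a) : W k x y) ∈ S}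
  rw [Fintype.card_fin] at h1
  simp only [Set.mem_ofPred_eq] at h1
  by_cases ht : (Sum.inr (i, Sum.inl true) : W k x y) ∈ S
  · have h2 := hub_nb hS i true ht
    by_cases hf : (Sum.inr (i, Sum.inl false) : W k x y) ∈ S
    · simp only [Bool.not_true, hf, if_true] at h2
      simp only [ht, hf, if_true]
      omega
    · simp only [Bool.not_true, hf, if_false] at h2
      simp only [ht, hf, if_true, if_false]
      omega
  · by_cases hf : (Sum.inr (i, Sum.inl false) : W k x y) ∈ S
    · have h2 := hub_nb hS i false hf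
      simp only [Bool.not_false, ht, if_false] at h2
      simp only [ht, hf, if_true, if_false]
      omega
    · simp only [ht, hf, if_false]
      omega

lemma alpha_W (k x y : ℕ) : alpha (GW k x y) k + (x + 2 * y) ≤ Fintype.card (W k x y) := by
  classical
  -- every `k`-independent set is small
  have key : ∀ S : Set (W k x y), IsKIndep (GW k x y) k S →
      S.ncard + (x + 2 * y) ≤ Fintype.card (W k x y) := by
    intro S hS
    rw [← compl_card S]
    apply Nat.add_le_add_left
    rw [Fintype.sum_sum_type, Fintype.sum_prod_type (f := fun p : Fin x × Option (Fin (k + 1)) =>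
      if (Sum.inl p : W k x y) ∈ S then 0 else 1),
      Fintype.sum_prod_type (f := fun p : Fin y × (Bool ⊕ Fin (k + 1)) =>
      if (Sum.inr p : W k x y) ∈ S then 0 else 1)]
    apply Nat.add_le_add
    · calc x = ∑ _i : Fin x, 1 := by simp
        _ ≤ _ := Finset.sum_le_sum fun i _ => star_miss hS i
    · calc 2 * y = ∑ _i : Fin y, 2 := by simp [mul_comm]
        _ ≤ _ := Finset.sum_le_sum fun i _ => hub_miss hS i
  have hmem : alpha (GW k x y) k ∈ {s | ∃ S : Set (W k x y), IsKIndep (GW k x y) k S ∧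
      S.ncard = s} :=
    Nat.sSup_mem ⟨0, ∅, by intro v hv; exact absurd hv (by simp), by simp⟩ (alpha_bdd _ _)
  obtain ⟨S, hS, hSc⟩ := hmem
  rw [← hSc]
  exact key S hS

/-- The upper bound for `f` from a disjoint union of stars and copies of `K_{k+3} - E(K_{k+1})`. -/
lemma upper (k d x y : ℕ) (hpos : 0 < x * (k + 2) + y * (k + 3))
    (hd : x * (2 * k + 2) + y * (4 * k + 6) ≤ d * (x * (k + 2) + y * (k + 3))) :
    f k d ≤ 1 - (x + 2 * y : ℝ) / (x * (k + 2) + y * (k + 3)) := by
  have hcard := card_W k x y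
  have hN : (0 : ℝ) < (x * (k + 2) + y * (k + 3) : ℝ) := by exact_mod_cast hpos
  have hne : Nonempty (W k x y) := by
    rw [← Fintype.card_pos_iff, hcard]; exact hpos
  have hcR : (Fintype.card (W k x y) : ℝ) = x * (k + 2) + y * (k + 3) := by
    rw [hcard]; push_cast; ring
  have h1 : f k d ≤ (alpha (GW k x y) k : ℝ) / Fintype.card (W k x y) := by
    refine csInf_le ⟨0, ?_⟩ ⟨W k x y, inferInstance, GW k x y, hne, ?_, rfl⟩
    · rintro z ⟨V, hV, G, -, -, rfl⟩
      positivity
    · unfold avgDeg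
      rw [hcR, div_le_iff₀ hN]
      have h2 := (sum_deg_W k x y).trans hd
      exact_mod_cast h2
  refine h1.trans ?_
  have h3 : (alpha (GW k x y) k : ℝ) + (x + 2 * y) ≤ Fintype.card (W k x y) := by
    exact_mod_cast alpha_W k x y
  rw [hcR] at h3 ⊢
  rw [div_le_iff₀ hN, sub_mul, one_mul, div_mul_cancel₀ _ hN.ne']
  linarith

/-- **Main theorem.**
1. For all integers `k ≥ d ≥ 2` the bound `f(k, d) ≥ (2k + 2 - d) / (2k + 2)` is not sharp.
2. In fact `f(k, d) ≥ 1 - ((k + 1) d + 2) / (2 (k² + 3k + 3))` for all `k ≥ 2` and all `d`.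
3. This is an equality for `d = 2` and all `k ≥ 2`: `f(k, 2) = (k + 1)² / (k² + 3k + 3)`; in
   particular `f(2, 2) = 9 / 13`.
4. It is also an equality for `d = 3` and all `k ≥ 3`.
5. `(k² + 3k + 3) (n - α_k(G)) ≤ (k + 1) |E(G)| + n` for every `k ≥ 2` and every graph `G` on `n`
   vertices. -/
theorem result :
    (∀ k d : ℕ, 2 ≤ d → d ≤ k → (2 * k + 2 - d : ℝ) / (2 * k + 2) < f k d) ∧
    (∀ k d : ℕ, 2 ≤ k → 1 - ((k + 1) * d + 2) / (2 * (k ^ 2 + 3 * k + 3) : ℝ) ≤ f k d) ∧
    (∀ k : ℕ, 2 ≤ k → f k 2 = (k + 1) ^ 2 / (k ^ 2 + 3 * k + 3)) ∧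
    (∀ k : ℕ, 3 ≤ k → f k 3 = 1 - (3 * k + 5) / (2 * (k ^ 2 + 3 * k + 3))) ∧
    (∀ k : ℕ, 2 ≤ k → ∀ (V : Type) [Fintype V] (G : SimpleGraph V),
      (k ^ 2 + 3 * k + 3) * Fintype.card V ≤
        (k ^ 2 + 3 * k + 3) * alpha G k + (k + 1) * G.edgeSet.ncard + Fintype.card V) := by
  refine ⟨fun k d hd hdk => ?_, lower, fun k hk => ?_, fun k hk => ?_,
    fun k hk V _ G => ineq k hk G⟩
  · have hk : 2 ≤ k := hd.trans hdk
    refine lt_of_lt_of_le ?_ (lower k d hk)
    have hd' : (2 : ℝ) ≤ d := by exact_mod_cast hd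
    have key : 1 - ((k + 1) * d + 2) / (2 * (k ^ 2 + 3 * k + 3) : ℝ) -
        (2 * k + 2 - d : ℝ) / (2 * k + 2) =
        (d * (k + 2) - 2 * (k + 1)) / (2 * (k + 1) * (k ^ 2 + 3 * k + 3)) := by
      have h1 : (k : ℝ) + 1 ≠ 0 := by positivity
      have h2 : (k : ℝ) ^ 2 + 3 * k + 3 ≠ 0 := by positivity
      field_simp
      ring
    have hpos : (0 : ℝ) < (d * (k + 2) - 2 * (k + 1)) / (2 * (k + 1) * (k ^ 2 + 3 * k + 3)) := by
      apply div_pos
      · nlinarith
      · positivity
    linarith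
  · have hK : (0 : ℝ) < (k : ℝ) ^ 2 + 3 * k + 3 := by positivity
    apply le_antisymm
    · have h := upper k 2 k 1 (by positivity) (by nlinarith)
      refine h.trans (le_of_eq ?_)
      push_cast
      have h1 : (k * (k + 2) + 1 * (k + 3) : ℝ) = k ^ 2 + 3 * k + 3 := by ring
      rw [h1]
      field_simp
      ring
    · refine le_trans (le_of_eq ?_) (lower k 2 hk)
      push_cast
      field_simp
      ring
  · have hK : (0 : ℝ) < (k : ℝ) ^ 2 + 3 * k + 3 := by positivity
    apply le_antisymm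
    · obtain ⟨j, rfl⟩ : ∃ j, k = j + 3 := ⟨k - 3, by omega⟩
      have h := upper (j + 3) 3 j (j + 7) (by positivity) (by nlinarith)
      refine h.trans (le_of_eq ?_)
      push_cast at hK ⊢
      have h1 : (j * (j + 3 + 2) + (j + 7) * (j + 3 + 3) : ℝ) =
          2 * ((j + 3) ^ 2 + 3 * (j + 3) + 3) := by ring
      rw [h1]
      congr 2
      ring
    · refine le_trans (le_of_eq ?_) (lower k 3 (by omega))
      push_cast
      congr 2
      ring

end Pool.Agent.Results.MP_10f18b_co.NeverSharp
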